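import Mathlib
import Pool.Agent.H.MP_cf6e1a_co.B
set_option autoImplicit false

namespace Pool.Agent.H.MP_47f029_co
open Finset Pool.Agent.H.MP_16c276_co Pool.Agent.H.MP_cf6e1a_co

noncomputable def v {n : ℕ} (i : Fin n) : EuclideanSpace ℝ (Fin n) := EuclideanSpace.single i 1

theorem vli {n : ℕ} : LinearIndependent ℝ (v (n := n)) := by
  have := (EuclideanSpace.basisFun (Fin n) ℝ).toBasis.linearIndependent
  rwa [show ⇑(EuclideanSpace.basisFun (Fin n) ℝ).toBasis = v from funext fun i => by simp [v]] at this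

open Classical in
theorem hull {n : ℕ} (σ : Finset (Fin n)) (x : EuclideanSpace ℝ (Fin n)) :
    x ∈ convexHull ℝ (σ.image v : Set _) ↔ (∀ i, 0 ≤ x i) ∧ ∑ i, x i = 1 ∧ ∀ i, i ∉ σ → x i = 0 := by
  constructor
  · intro h
    refine convexHull_min (t := {x | (∀ i, 0 ≤ x i) ∧ ∑ i, x i = 1 ∧ ∀ i, i ∉ σ → x i = 0}) ?_ ?_ h
    · intro y hy
      obtain ⟨j, hj, rfl⟩ := mem_image.1 hy
      refine ⟨fun i => ?_, by simp [v], fun i hi => by simp [v, ne_of_mem_of_not_mem hj hi |>.symm]⟩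
      simp only [v, PiLp.single_apply]
      split_ifs <;> norm_num
    · rintro x ⟨x0, x1, x2⟩ y ⟨y0, y1, y2⟩ a b ha hb e
      exact ⟨fun i => add_nonneg (mul_nonneg ha (x0 i)) (mul_nonneg hb (y0 i)), by
        simp [sum_add_distrib, ← mul_sum, x1, y1, e], fun i hi => by simp [x2 i hi, y2 i hi]⟩
  · rintro ⟨x0, x1, x2⟩
    have : x = ∑ i ∈ σ, x i • v i := by
      ext j
      by_cases h : j ∈ σ <;> simp [v, Pi.single_apply, h, x2]
    rw [this]
    exact (convex_convexHull ℝ _).sum_mem (fun i _ => x0 i)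
      (x1 ▸ sum_subset (subset_univ _) fun i _ => x2 i)
      fun i hi => subset_convexHull ℝ _ (mem_image_of_mem _ hi)

open Classical in
theorem geo (n : ℕ) (l : List ℕ) (h0 : ∀ m ∈ l, (dec n m).card = 4) :
    ∃ C : Geometry.SimplicialComplex ℝ (EuclideanSpace ℝ (Fin n)), C.faces.Finite ∧
      Nonempty (C.space ≃ₜ RL n l) ∧ (∀ σ ∈ K n l, σ.image v = ∅ ∨ σ.image v ∈ C.faces) ∧
      ∀ F, F ∈ C.facets ↔ ∃ m ∈ l, (dec n m).image v = F := by
  let A : PreAbstractSimplicialComplex (Fin n) := ⟨{σ | σ.Nonempty ∧ σ ∈ K n l}, fun σ h =>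
    ⟨h.1, fun τ a b => ⟨b, mem_K.2 ((mem_K.1 h.2).imp fun _ c => ⟨c.1, Subset.trans a c.2⟩)⟩⟩⟩
  have ne : ∀ m ∈ l, dec n m ∈ A.faces := fun m hm =>
    ⟨card_pos.1 (by rw [h0 m hm]; decide), mem_K.2 ⟨m, hm, Subset.rfl⟩⟩
  refine ⟨.ofAffineIndependent (𝕜 := ℝ) (A.map v) (vli.affineIndependent.range.mono fun x hx => ?_),
    (Set.toFinite _).image _, ⟨((EuclideanSpace.equiv (Fin n) ℝ).toHomeomorph.subtype fun x => ?_)⟩,
    fun σ h => σ.eq_empty_or_nonempty.imp (by rintro rfl; rfl) fun a => ⟨σ, ⟨a, h⟩, rfl⟩,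
    fun F => Geometry.SimplicialComplex.mem_facets.trans ⟨?_, ?_⟩⟩
  · obtain ⟨_, ⟨σ, -, rfl⟩, hx⟩ := Set.mem_iUnion₂.1 hx
    obtain ⟨i, -, rfl⟩ := mem_image.1 hx
    exact ⟨i, rfl⟩
  · refine Geometry.SimplicialComplex.mem_space_iff.trans ⟨?_, ?_⟩
    · rintro ⟨_, ⟨σ, ⟨-, a⟩, rfl⟩, b⟩
      obtain ⟨m, c, d⟩ := mem_K.1 a
      obtain ⟨b0, b1, b2⟩ := (hull σ x).1 b
      exact ⟨b0, b1, _, ⟨m, c, rfl⟩, fun i hi => b2 i fun e => hi (d e)⟩
    · rintro ⟨b0, b1, _, ⟨m, c, rfl⟩, b2⟩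
      exact ⟨_, ⟨_, ne m c, rfl⟩, (hull _ x).2 ⟨b0, b1, b2⟩⟩
  · rintro ⟨⟨σ, ⟨-, a⟩, rfl⟩, b⟩
    obtain ⟨m, c, d⟩ := mem_K.1 a
    exact ⟨m, c, (b _ ⟨_, ne m c, rfl⟩ (image_subset_image d)).symm⟩
  · rintro ⟨m, c, rfl⟩
    refine ⟨⟨_, ne m c, rfl⟩, ?_⟩
    rintro _ ⟨σ, ⟨-, a⟩, rfl⟩ b
    obtain ⟨m', d, e⟩ := mem_K.1 a
    exact eq_of_subset_of_card_le b (card_image_le.trans ((card_le_card e).trans (by
      rw [card_image_of_injective _ vli.injective, h0 m c, h0 m' d])))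

theorem dec_surj {n : ℕ} (σ : Finset (Fin n)) : ∃ m < 2 ^ n, dec n m = σ := by
  obtain ⟨m, h⟩ := ((Fintype.bijective_iff_injective_and_card fun m : Fin (2 ^ n) => dec n m).2
    ⟨fun a b h => Fin.ext (inj a.2 b.2 h), by simp⟩).2 σ
  exact ⟨m, m.2, h⟩

theorem bs_mem {l : List ℕ} {m : ℕ} (h : m ∈ l) : (bs l).testBit m = true := by
  induction l with
  | nil => simp at h
  | cons a t ih =>
    rw [bs, List.foldr_cons, Nat.testBit_or, Bool.or_eq_true, Nat.testBit_two_pow, decide_eq_true_eq]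
    exact (List.mem_cons.1 h).symm.imp ih Eq.symm

noncomputable def lp (cv : ℕ) (g : ℕ → List ℕ → Option (List ℕ)) (O : List ℕ) :
    List ℕ → Option (List ℕ) :=
  List.rec some (fun o _ r c => Option.rec none r (force (cv ||| o) fun u => g u c)) O

noncomputable def go (O : List ℕ) (S k : ℕ) : ℕ → List ℕ → Option (List ℕ) :=
  Nat.rec (fun _ _ => none) (fun _ ih cv c => List.rec none (fun σ c _ => Bool.rec none
    (lp cv ih (flt (2 ^ σ) true (O.filter fun o => Nat.beq (Nat.land o cv) 0)) c)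
    (S.testBit σ && !cv.testBit σ)) c) k

theorem go_ok (O : List ℕ) (S : ℕ) (P : ℕ → Prop) (h1 : ∀ s, P s → s ∈ O)
    (h2 : ∀ σ, S.testBit σ → ∃ s, P s ∧ s.testBit σ)
    (h3 : ∀ s t σ, P s → P t → s.testBit σ → t.testBit σ → s = t) (k : ℕ) :
    ∀ cv c, (∀ s σ τ, P s → s.testBit σ → cv.testBit σ → s.testBit τ → cv.testBit τ) →
      go O S k cv c = none := by
  induction k with
  | zero => exact fun _ _ _ => rfl
  | succ k ih =>
    intro cv c h
    cases c with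
    | nil => rfl
    | cons σ c =>
      change (Bool.rec none (lp cv (go O S k) (flt (2 ^ σ) true (O.filter fun o =>
        Nat.beq (Nat.land o cv) 0)) c) (S.testBit σ && !cv.testBit σ) : Option _) = none
      cases e : (S.testBit σ && !cv.testBit σ)
      · rfl
      simp only [Bool.and_eq_true, Bool.not_eq_true'] at e
      obtain ⟨s, s1, s2⟩ := h2 σ e.1
      have s5 : s ∈ flt (2 ^ σ) true (O.filter fun o => Nat.beq (Nat.land o cv) 0) := by
        refine mem_flt.2 ⟨List.mem_filter.2 ⟨h1 s s1, Nat.beq_eq ▸ Nat.eq_of_testBit_eq fun i =>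
          (Nat.testBit_and s cv i).trans ?_⟩, by simp [Nat.and_two_pow, s2]⟩
        rw [Nat.zero_testBit, Bool.and_eq_false_imp]
        exact fun a => Bool.eq_false_iff.2 fun b => Bool.eq_false_iff.1 e.2 (h s i σ s1 a b s2)
      have s4 : ∀ c, go O S k (cv ||| s) c = none := fun c => ih _ c fun t a b t1 t2 t3 t4 => by
        rw [Nat.testBit_or, Bool.or_eq_true] at t3 ⊢
        exact t3.imp (fun d => h t a b t1 t2 d t4) fun d => h3 t s a t1 s1 t2 d ▸ t4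
      generalize flt (2 ^ σ) true (O.filter fun o => Nat.beq (Nat.land o cv) 0) = O' at s5 ⊢
      generalize go O S k = g at s4 ⊢
      change lp cv g O' c = none
      induction O' generalizing c with
      | nil => simp at s5
      | cons o t i2 =>
        change (Option.rec none (lp cv g t) (force (cv ||| o) fun u => g u c) : Option _) = none
        rw [force_eq]
        rcases List.mem_cons.1 s5 with rfl | a
        · rw [s4]
        · cases g (cv ||| o) c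
          exacts [rfl, i2 _ a]

def In (m ρ σ : ℕ) : Bool := Nat.beq (Nat.land σ ρ) ρ && Nat.beq (Nat.land m σ) σ

def wt (X : List ℕ) (p : ℕ → Bool) : ℤ :=
  (X.map fun x => if p (x / 64) then Int.subNatNat (x % 64) 32 else 0).sum

theorem nopart (l X c : List ℕ) (k : ℕ) (ρ : ℕ → ℕ) (h1 : ∀ m ∈ l, ρ m ∈ X.map (· / 64) ∧ In m 0 (ρ m))
    (h2 : ∀ σ ∈ X.map (· / 64), ∃! m, m ∈ l ∧ In m (ρ m) σ) (c1 : wt X (fun _ => true) = 0)
    (c2 : ∀ m ∈ l, ∀ r ∈ (X.map (· / 64)).filter (In m 0), 0 ≤ wt X (In m r)) :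
    (fL (l.flatMap fun m => (((X.map (· / 64)).filter (In m 0)).filter fun r => wt X (In m r) == 0).map
      fun r => bs ((X.map (· / 64)).filter (In m r))) fun O => force (bs (X.map (· / 64))) fun S =>
        go O S k 0 c) = none := by
  have e : ∑ m ∈ l.toFinset, wt X (In m (ρ m)) = wt X fun _ => true := by
    clear h1 c1 c2
    induction X with
    | nil => simp [wt]
    | cons x t ih =>
      obtain ⟨m, ⟨a, b⟩, d⟩ := h2 _ List.mem_cons_self
      simp only [wt, List.map_cons, List.sum_cons, sum_add_distrib] at ih ⊢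
      rw [ih fun σ h => h2 σ (List.mem_cons_of_mem _ h), sum_eq_single_of_mem m (List.mem_toFinset.2 a)
        fun y y1 y2 => if_neg fun f => y2 (d y ⟨List.mem_toFinset.1 y1, f⟩), if_pos b, if_pos trivial]
  have f := (sum_eq_zero_iff_of_nonneg fun m hm => c2 m (List.mem_toFinset.1 hm) _
    (List.mem_filter.2 (h1 m (List.mem_toFinset.1 hm)))).1 (e.trans c1)
  rw [fL_eq, force_eq]
  refine go_ok _ _ (fun s => ∃ m ∈ l, s = bs ((X.map (· / 64)).filter (In m (ρ m)))) ?_ (fun σ h => ?_) ?_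
    k 0 c (by simp)
  · rintro _ ⟨m, a, rfl⟩
    exact List.mem_flatMap.2 ⟨m, a, List.mem_map.2 ⟨_, List.mem_filter.2 ⟨List.mem_filter.2 (h1 m a),
      beq_iff_eq.2 (f m (List.mem_toFinset.2 a))⟩, rfl⟩⟩
  · obtain ⟨m, ⟨a, b⟩, -⟩ := h2 σ (mem_bs h)
    exact ⟨_, ⟨m, a, rfl⟩, bs_mem (List.mem_filter.2 ⟨mem_bs h, b⟩)⟩
  · rintro _ _ σ ⟨m, a, rfl⟩ ⟨m', b, rfl⟩ d e
    have d := List.mem_filter.1 (mem_bs d)
    rw [(h2 σ d.1).unique ⟨a, d.2⟩ ⟨b, (List.mem_filter.1 (mem_bs e)).2⟩]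

end Pool.Agent.H.MP_47f029_co
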